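import Pool.Agent.MP_826def_gt.BH.Spec

/-! Division by the level polynomials. -/

namespace Pool.Agent.MP_826def_gt.BH

open Finset Polynomial MU

noncomputable section

/-- A polynomial of small degree with many roots is killed by the discriminant. -/
theorem disc_kill {B ι : Type*} [CommRing B] [DecidableEq ι] (y : ι → B) (T : Finset ι) :
    ∀ R : B[X], R.degree < T.card → (∀ s ∈ T, R.eval (y s) = 0) →
      C (∏ p ∈ T.offDiag, (y p.1 - y p.2)) * R = 0 := by
  induction T using Finset.induction_on with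
  | empty =>
    intro R hR _
    have : R = 0 := by
      rw [← degree_eq_bot]
      simpa using hR
    simp [this]
  | insert s T hs ih =>
    intro R hR h0
    rcases subsingleton_or_nontrivial B with hB | hB
    · exact Subsingleton.elim _ _
    have hroot : R.IsRoot (y s) := h0 s (mem_insert_self _ _)
    have hfac : (X - C (y s)) * (R /ₘ (X - C (y s))) = R := mul_divByMonic_eq_iff_isRoot.2 hroot
    set R1 := R /ₘ (X - C (y s)) with hR1
    have hdeg : R1.degree < T.card := by
      by_cases h1 : R1 = 0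
      · rw [h1, degree_zero]; exact WithBot.bot_lt_coe _
      have hm : (X - C (y s)).Monic := monic_X_sub_C _
      rw [← hfac, hm.degree_mul_comm, hm.degree_mul, degree_X_sub_C, card_insert_of_notMem hs,
        degree_eq_natDegree h1] at hR
      rw [degree_eq_natDegree h1]
      norm_cast at hR ⊢
      omega
    have h2 := ih (C (∏ t ∈ T, (y t - y s)) * R1) ?_ ?_
    · have hd : (∏ p ∈ T.offDiag, (y p.1 - y p.2)) * ∏ t ∈ T, (y t - y s) ∣
          ∏ p ∈ (insert s T).offDiag, (y p.1 - y p.2) := by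
        have e1 : ∏ t ∈ T, (y t - y s) = ∏ p ∈ T ×ˢ ({s} : Finset ι), (y p.1 - y p.2) := by
          rw [prod_product]; simp
        rw [e1, ← prod_union]
        · refine prod_dvd_prod_of_subset _ _ _ ?_
          intro p hp
          rcases mem_union.1 hp with hp | hp
          · exact offDiag_mono (subset_insert _ _) hp
          · rw [mem_product, mem_singleton] at hp
            rw [mem_offDiag]
            refine ⟨mem_insert_of_mem hp.1, by rw [hp.2]; exact mem_insert_self _ _, ?_⟩
            rw [hp.2]; rintro h; exact hs (h ▸ hp.1)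
        · rw [disjoint_left]
          intro p hp hq
          rw [mem_product, mem_singleton] at hq
          rw [mem_offDiag, hq.2] at hp
          exact hs hp.2.1
      obtain ⟨c, hc⟩ := hd
      rw [hc, ← hfac, C_mul, C_mul]
      calc _ = C c * (X - C (y s)) * (C (∏ p ∈ T.offDiag, (y p.1 - y p.2)) *
          (C (∏ t ∈ T, (y t - y s)) * R1)) := by ring
        _ = 0 := by rw [h2, mul_zero]
    · refine lt_of_le_of_lt ?_ hdeg
      rw [← smul_eq_C_mul]; exact degree_smul_le _ _
    · intro t ht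
      have h3 := h0 t (mem_insert_of_mem ht)
      rw [← hfac, eval_mul, eval_sub, eval_X, eval_C] at h3
      rw [eval_mul, eval_C, ← mul_prod_erase T _ ht, mul_right_comm, h3, zero_mul]

/-- Division of a polynomial by the product of the linear factors at the points `y s`. -/
theorem newton {A ι : Type*} [CommRing A] [DecidableEq ι] (y : ι → A) (T : Finset ι)
    (m I : Ideal A) (Φ : A[X]) (hy : ∀ s ∈ T, y s ∈ m) (hI : ∀ s ∈ T, Φ.eval (y s) ∈ I) :
    ∃ Q R : A[X], Φ = (∏ s ∈ T, (X - C (y s))) * Q + R ∧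
      (∀ x ∈ m, Q.eval x - Φ.coeff T.card ∈ m) ∧
      ∀ j, (∏ p ∈ T.offDiag, (y p.1 - y p.2)) * R.coeff j ∈ I := by
  rcases subsingleton_or_nontrivial A with hA | hA
  · exact ⟨0, 0, Subsingleton.elim _ _, fun x _ => by rw [Subsingleton.elim (_ - _) 0]; exact m.zero_mem,
      fun j => by rw [Subsingleton.elim (_ * _) 0]; exact I.zero_mem⟩
  set P : A[X] := ∏ s ∈ T, (X - C (y s)) with hP
  have hm : P.Monic := monic_prod_of_monic _ _ fun s _ => monic_X_sub_C _
  have hdP : P.degree = T.card := by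
    rw [degree_eq_natDegree hm.ne_zero, hP, natDegree_prod_of_monic _ _ fun s _ => monic_X_sub_C _]
    simp
  have hdiv : Φ = P * (Φ /ₘ P) + Φ %ₘ P := by rw [add_comm, modByMonic_add_div]
  have hdR : (Φ %ₘ P).degree < T.card := hdP ▸ degree_modByMonic_lt Φ hm
  refine ⟨Φ /ₘ P, Φ %ₘ P, hdiv, fun x hx => ?_, fun j => ?_⟩
  · rw [← Ideal.Quotient.eq_zero_iff_mem, map_sub, sub_eq_zero]
    have e1 : P.map (Ideal.Quotient.mk m) = X ^ T.card := by
      rw [hP, Polynomial.map_prod, ← prod_const]
      refine prod_congr rfl fun s hs => ?_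
      rw [Polynomial.map_sub, map_X, map_C, Ideal.Quotient.eq_zero_iff_mem.2 (hy s hs), C_0, sub_zero]
    have e2 : Φ.coeff T.card = (P * (Φ /ₘ P)).coeff T.card := by
      conv_lhs => rw [hdiv]
      rw [coeff_add, coeff_eq_zero_of_degree_lt hdR, add_zero]
    rw [e2, ← coeff_map, Polynomial.map_mul, e1, ← eval₂_at_apply, ← eval_map,
      Ideal.Quotient.eq_zero_iff_mem.2 hx, ← coeff_zero_eq_eval_zero]
    have := coeff_X_pow_mul (Polynomial.map (Ideal.Quotient.mk m) (Φ /ₘ P)) T.card 0
    rw [zero_add] at this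
    exact this.symm
  · have h1 := disc_kill (fun s => Ideal.Quotient.mk I (y s)) T
      ((Φ %ₘ P).map (Ideal.Quotient.mk I)) (lt_of_le_of_lt degree_map_le hdR) ?_
    · have h2 := congrArg (fun p => coeff p j) h1
      simp only [coeff_C_mul, coeff_zero, coeff_map] at h2
      rw [← Ideal.Quotient.eq_zero_iff_mem, map_mul, map_prod]
      simpa only [map_sub] using h2
    · intro s hs
      rw [eval_map, eval₂_at_apply, Ideal.Quotient.eq_zero_iff_mem]
      have h3 := hI s hs
      rw [hdiv, eval_add, eval_mul] at h3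
      have h4 : P.eval (y s) = 0 := by
        rw [hP, eval_prod]
        exact prod_eq_zero hs (by simp)
      rwa [h4, zero_mul, zero_add] at h3

/-- The difference of two of the points has a linear initial form. -/
theorem ini_sub {A : Type 1} [CommRing A] {r : ℕ} {x : Fin r → A} {y : Finset (Fin r) → A}
    (hl : ∀ S, y S - ∑ i ∈ S, x i ∈ mX x ^ 2) {S T : Finset (Fin r)} (h : S ≠ T) :
    Ini x (y S - y T) 1 := by
  refine ⟨∑ i ∈ S, MvPolynomial.X i - ∑ i ∈ T, MvPolynomial.X i, ?_, ?_, ?_⟩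
  · exact (MvPolynomial.IsHomogeneous.sum _ _ _ fun i _ => MvPolynomial.isHomogeneous_X _ _).sub
      (MvPolynomial.IsHomogeneous.sum _ _ _ fun i _ => MvPolynomial.isHomogeneous_X _ _)
  · intro h0
    apply h
    ext i
    have h1 := congrArg (MvPolynomial.coeff (Finsupp.single i 1)) h0
    simp only [map_sub, map_sum, MvPolynomial.map_X, MvPolynomial.coeff_sub, MvPolynomial.coeff_sum,
      MvPolynomial.coeff_X, Finsupp.single_left_inj (one_ne_zero), sum_ite_eq',
      MvPolynomial.coeff_zero] at h1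
    by_cases hS : i ∈ S <;> by_cases hT : i ∈ T <;> simp [hS, hT] at h1 ⊢
  · have := (mX x ^ 2).sub_mem (hl S) (hl T)
    simp only [map_sub, map_sum, MvPolynomial.aeval_X]
    have e : y S - y T - (∑ i ∈ S, x i - ∑ i ∈ T, x i) =
      y S - ∑ i ∈ S, x i - (y T - ∑ i ∈ T, x i) := by ring
    rw [e]; exact this

theorem h1b : S_H1b := by
  intro A _ r x f y p hr hp
  have hym : ∀ S, y S ∈ mX x := fun S => by
    have h1 := Ideal.pow_le_self (I := mX x) two_ne_zero (hp.lin S)
    have h2 : ∑ i ∈ S, x i ∈ mX x := Ideal.sum_mem _ fun i _ => X_mem i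
    simpa using (mX x).add_mem h1 h2
  let T : ℕ → Finset (Finset (Fin r)) := fun k => (univ.filter fun i : Fin r => (i : ℕ) < k).powerset
  have hT : ∀ k ≤ r, (T k).card = 2 ^ k := fun k hk => by
    rw [card_powerset, Fin.card_filter_val_lt, min_eq_right hk]
  have hN : ∀ k, ∃ Q R : A[X], p = (∏ s ∈ T k, (X - C (y s))) * Q + R ∧
      (∀ z ∈ mX x, Q.eval z - p.coeff (T k).card ∈ mX x) ∧
      ∀ j, (∏ q ∈ (T k).offDiag, (y q.1 - y q.2)) * R.coeff j ∈ Ik f k := fun k =>
    newton y (T k) (mX x) (Ik f k) p (fun s _ => hym s) fun s hs =>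
      hp.mem s k fun i hi => (mem_filter.1 (mem_powerset.1 hs hi)).2
  choose Q R hQR hQ hR using hN
  set E : A := ∏ q ∈ (univ : Finset (Finset (Fin r))).offDiag, (y q.1 - y q.2) with hE
  have hER : ∀ k j, E * (R k).coeff j ∈ Ik f k := fun k j => by
    obtain ⟨c, hc⟩ : (∏ q ∈ (T k).offDiag, (y q.1 - y q.2)) ∣ E :=
      prod_dvd_prod_of_subset _ _ _ (offDiag_mono (subset_univ _))
    rw [hc, mul_right_comm]
    exact Ideal.mul_mem_right _ _ (hR k j)
  have hcard : (univ : Finset (Finset (Fin r))).card = 2 ^ r := by simp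
  refine ⟨fun k => if h : k < r then (Q k).eval (x ⟨k, h⟩) else 0, E, (Q r).eval 0,
    ∏ S ∈ (univ : Finset (Finset (Fin r))).erase ∅, (y ∅ - y S),
    ∑ _q ∈ (univ : Finset (Finset (Fin r))).offDiag, 1,
    ∑ _S ∈ (univ : Finset (Finset (Fin r))).erase ∅, 1, ?_, ?_, ?_, ?_, ?_, ?_, ?_, ?_, ?_⟩
  · intro k hk
    rw [dif_pos hk, ← hT k hk.le]
    exact hQ k _ (X_mem _)
  · rw [← hT r le_rfl]
    exact hQ r _ (Ideal.zero_mem _)
  · intro k hk
    refine ⟨∏ s ∈ T k, (x ⟨k, hk⟩ - y s), ?_, ?_⟩
    · have e1 : ∏ s ∈ T k, (x ⟨k, hk⟩ - y s) =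
          ∏ q ∈ ({{⟨k, hk⟩}} : Finset (Finset (Fin r))) ×ˢ T k, (y q.1 - y q.2) := by
        rw [prod_product, prod_singleton]
        simp only [hp.sing]
      rw [e1]
      refine prod_dvd_prod_of_subset _ _ _ fun q hq => ?_
      rw [mem_product, mem_singleton] at hq
      rw [mem_offDiag]
      refine ⟨mem_univ _, mem_univ _, fun h => ?_⟩
      have h2 : (⟨k, hk⟩ : Fin r) ∈ q.2 := by rw [← h, hq.1]; exact mem_singleton_self _
      have := (mem_filter.1 (mem_powerset.1 hq.2 h2)).2
      exact lt_irrefl _ this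
    · rw [dif_pos hk]
      have h1 := hp.val ⟨k, hk⟩
      have h2 : f k - (∏ s ∈ T k, (x ⟨k, hk⟩ - y s)) * (Q k).eval (x ⟨k, hk⟩) =
          (R k).eval (x ⟨k, hk⟩) := by
        rw [hQR k, eval_add, eval_mul, eval_prod] at h1
        simp only [eval_sub, eval_X, eval_C] at h1
        rw [← h1]; ring
      rw [h2, eval_eq_sum_range, mul_sum]
      refine Ideal.sum_mem _ fun j _ => ?_
      rw [← mul_assoc]
      exact Ideal.mul_mem_right _ _ (hER k j)
  · have hTr : T r = univ := by
      ext S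
      simp only [T, mem_powerset, mem_univ, iff_true]
      intro i _
      exact mem_filter.2 ⟨mem_univ _, i.2⟩
    have hc1 : ∀ q : A[X], (Polynomial.X * q).coeff 1 = q.coeff 0 := fun q => coeff_X_mul q 0
    have h1 : p.coeff (2 ^ 0) - (Q r).eval 0 *
        ∏ S ∈ (univ : Finset (Finset (Fin r))).erase ∅, (y ∅ - y S) = (R r).coeff 1 := by
      conv_lhs => rw [hQR r, hTr, ← mul_prod_erase _ _ (mem_univ (∅ : Finset (Fin r)))]
      rw [pow_zero, coeff_add, hp.emp, C_0, sub_zero, mul_assoc,
        hc1, coeff_zero_eq_eval_zero,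
        eval_mul, eval_prod]
      simp only [eval_sub, eval_X, eval_C]
      ring
    rw [h1]
    exact hER r 1
  · exact Ini.prod _ fun q hq => ini_sub hp.lin (mem_offDiag.1 hq).2.2
  · exact Ini.prod _ fun S hS => ini_sub hp.lin (mem_erase.1 hS).1.symm
  · rw [sum_const, smul_eq_mul, mul_one, offDiag_card, hcard, ← mul_pow]
    exact Nat.sub_le _ _
  · rw [sum_const, smul_eq_mul, mul_one, card_erase_of_mem (mem_univ _), hcard]
    have : 2 ^ 1 ≤ 2 ^ r := Nat.pow_le_pow_right two_pos hr
    omega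
  · rw [sum_const, smul_eq_mul, mul_one, card_erase_of_mem (mem_univ _), hcard]
    exact Nat.sub_le _ _

end

end Pool.Agent.MP_826def_gt.BH
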