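import Pool.Agent.MP_826def_gt.BH.Spec

/-! Initial forms: a sequence that deforms a weakly regular sequence is weakly regular. -/

namespace Pool.Agent.MP_826def_gt.BH

namespace Fil

open Set

section abstract

variable {A M : Type*} [CommRing A] [AddCommGroup M] [Module A M] {g : ℕ → A}

/-- The sequence is weakly regular on `Q / P`. -/
def RegOn (g : ℕ → A) (k : ℕ) (Q P : Submodule A M) : Prop :=
  ∀ l < k, ∀ x ∈ Q, g l • x ∈ Ideal.span (g '' Iio l) • Q ⊔ P →
    x ∈ Ideal.span (g '' Iio l) • Q ⊔ P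

lemma span_succ (g : ℕ → A) (k : ℕ) :
    Ideal.span (g '' Iio (k + 1)) = Ideal.span (g '' Iio k) ⊔ Ideal.span {g k} := by
  rw [← Ideal.span_union, ← image_singleton, ← image_union]
  congr 2
  ext i
  simp only [mem_Iio, mem_union, mem_singleton_iff]
  omega

lemma mem_succ {k : ℕ} {Q : Submodule A M} {x : M} :
    x ∈ Ideal.span (g '' Iio (k + 1)) • Q ↔
      ∃ y ∈ Ideal.span (g '' Iio k) • Q, ∃ q ∈ Q, x = y + g k • q := by
  rw [span_succ, Submodule.sup_smul, Submodule.mem_sup, Submodule.ideal_span_singleton_smul]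
  constructor
  · rintro ⟨y, hy, z, hz, rfl⟩
    obtain ⟨q, hq, rfl⟩ := (Submodule.mem_smul_pointwise_iff_exists _ _ _).1 hz
    exact ⟨y, hy, q, hq, rfl⟩
  · rintro ⟨y, hy, q, hq, rfl⟩
    exact ⟨y, hy, _, (Submodule.mem_smul_pointwise_iff_exists _ _ _).2 ⟨q, hq, rfl⟩, rfl⟩

lemma span_smul_ind {s : Set A} {Q : Submodule A M} {p : M → Prop} {x : M}
    (hx : x ∈ Ideal.span s • Q) (h0 : p 0) (hadd : ∀ a b, p a → p b → p (a + b))
    (hs : ∀ a ∈ s, ∀ q ∈ Q, p (a • q)) : p x := by
  refine Submodule.smul_induction_on hx (fun a ha => ?_) hadd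
  induction ha using Submodule.span_induction with
  | mem a ha => exact hs a ha
  | zero => intro q _; simpa using h0
  | add a b _ _ ha hb => intro q hq; rw [add_smul]; exact hadd _ _ (ha q hq) (hb q hq)
  | smul a b _ hb =>
    intro q hq
    rw [smul_eq_mul, mul_comm, mul_smul]
    exact hb _ (Q.smul_mem _ hq)

lemma RegOn.inter {k : ℕ} {Q P : Submodule A M} (h : RegOn g k Q P) :
    ∀ x ∈ Ideal.span (g '' Iio k) • Q, x ∈ P → x ∈ Ideal.span (g '' Iio k) • P := by
  induction k with
  | zero => intro x hx _; simpa using hx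
  | succ k ih =>
    intro x hx hP
    obtain ⟨y, hy, q, hq, rfl⟩ := mem_succ.1 hx
    have h1 : g k • q ∈ Ideal.span (g '' Iio k) • Q ⊔ P := by
      rw [show g k • q = -y + (y + g k • q) by abel]
      exact Submodule.add_mem_sup (neg_mem hy) hP
    obtain ⟨y', hy', p, hp, rfl⟩ := Submodule.mem_sup.1 (h k (by omega) q hq h1)
    refine mem_succ.2 ⟨y + g k • y', ih (fun l hl => h l (by omega)) _
      (add_mem hy (Submodule.smul_mem _ _ hy')) ?_, p, hp, by rw [smul_add]; abel⟩
    rw [show y + g k • y' = y + g k • (y' + p) - g k • p by rw [smul_add]; abel]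
    exact sub_mem hP (P.smul_mem _ hp)

lemma RegOn.trans {k : ℕ} {Q P O : Submodule A M} (h : RegOn g k Q P) (h' : RegOn g k P O)
    (hPQ : P ≤ Q) (hOP : O ≤ P) : RegOn g k Q O := by
  intro l hl x hx hg
  obtain ⟨y, hy, p, hp, rfl⟩ := Submodule.mem_sup.1 (h l hl x hx (sup_le_sup_left hOP _ hg))
  obtain ⟨y', hy', o, ho, he⟩ := Submodule.mem_sup.1 hg
  have h1 : y' - g l • y = g l • p - o := by
    rw [smul_add] at he
    rw [sub_eq_sub_iff_add_eq_add, he, add_comm]
  have h2 : g l • p - o ∈ Ideal.span (g '' Iio l) • P := by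
    refine RegOn.inter (fun i hi => h i (by omega)) _ ?_ (sub_mem (P.smul_mem _ hp) (hOP ho))
    rw [← h1]
    exact sub_mem hy' (Submodule.smul_mem _ _ hy)
  have h3 : g l • p ∈ Ideal.span (g '' Iio l) • P ⊔ O := by
    rw [show g l • p = g l • p - o + o by abel]
    exact Submodule.add_mem_sup h2 ho
  exact add_mem (Submodule.mem_sup_left hy)
    (sup_le_sup_right (Submodule.smul_mono le_rfl hPQ) _ (h' l hl p hp h3))

end abstract

variable {U A N M : Type 1} [CommRing U] [CommRing A] [AddCommGroup N] [Module U N]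
  [AddCommGroup M] [Module A M] {r n : ℕ} {X : Fin r → A} {ι : N →+ M} {φ : U →+* A}

/-- The element with coefficients `c`. -/
def asm (X : Fin r → A) (ι : N →+ M) (c : (Fin r → Fin n) → N) : M :=
  ∑ e, (∏ i, X i ^ (e i : ℕ)) • ι (c e)

lemma asm_add (c c' : (Fin r → Fin n) → N) : asm X ι (c + c') = asm X ι c + asm X ι c' := by
  simp [asm, Finset.sum_add_distrib]

lemma asm_sub (c c' : (Fin r → Fin n) → N) : asm X ι (c - c') = asm X ι c - asm X ι c' := by
  simp [asm, smul_sub]

lemma asm_smul (hι : ∀ (u : U) x, ι (u • x) = φ u • ι x) (u : U) (c : (Fin r → Fin n) → N) :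
    asm X ι (u • c) = φ u • asm X ι c := by
  simp only [asm, Pi.smul_apply, hι, Finset.smul_sum]
  exact Finset.sum_congr rfl fun e _ => smul_comm _ _ _

lemma mono_mem (X : Fin r → A) (e : Fin r → ℕ) {d : ℕ} (h : d ≤ ∑ i, e i) :
    ∏ i, X i ^ e i ∈ Ideal.span (range X) ^ d := by
  refine Ideal.pow_le_pow_right h ?_
  rw [← Finset.prod_pow_eq_pow_sum]
  exact Ideal.prod_mem_prod fun i _ => Ideal.pow_mem_pow (Ideal.subset_span (mem_range_self i)) _

/-- The filtration by powers of the variables, read on the coefficients. -/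
lemma mem_filt (hX : ∀ i, X i ^ n = 0) (hf : MU.FreeOn X n ι) (d : ℕ)
    (c : (Fin r → Fin n) → N) :
    asm X ι c ∈ Ideal.span (range X) ^ d • (⊤ : Submodule A M) ↔
      ∀ e : Fin r → Fin n, ∑ i, (e i : ℕ) < d → c e = 0 := by
  classical
  constructor
  · have key : ∀ d : ℕ, ∀ y ∈ Ideal.span (range X) ^ d • (⊤ : Submodule A M), ∀ f : Fin r → ℕ,
        ∃ c : (Fin r → Fin n) → N, (∀ e : Fin r → Fin n, ∑ i, (e i : ℕ) < d + ∑ i, f i → c e = 0) ∧
          asm X ι c = (∏ i, X i ^ f i) • y := by
      intro d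
      induction d with
      | zero =>
        intro y _ f
        obtain ⟨c, rfl⟩ := hf.2 y
        simp only [Finset.smul_sum, smul_smul, ← Finset.prod_mul_distrib, ← pow_add]
        refine Finset.sum_induction _ (fun z => ∃ c : (Fin r → Fin n) → N,
          (∀ e : Fin r → Fin n, ∑ i, (e i : ℕ) < 0 + ∑ i, f i → c e = 0) ∧ asm X ι c = z) ?_
          ⟨0, fun _ _ => rfl, by simp [asm]⟩ ?_
        · rintro _ _ ⟨u, hu, rfl⟩ ⟨v, hv, rfl⟩
          exact ⟨u + v, fun e he => by simp [hu e he, hv e he], asm_add u v⟩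
        · intro e _
          by_cases hlt : ∀ i, f i + e i < n
          · refine ⟨Pi.single (fun i => ⟨_, hlt i⟩) (c e), fun e' he' => ?_, ?_⟩
            · refine Pi.single_eq_of_ne (fun h => ?_) _
              subst h
              simp only [Finset.sum_add_distrib] at he'
              omega
            · unfold asm
              rw [Finset.sum_eq_single (fun i => (⟨_, hlt i⟩ : Fin n))]
              · simp
              · intro b _ hb
                simp [Pi.single_eq_of_ne hb]
              · simp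
          · push Not at hlt
            obtain ⟨i, hi⟩ := hlt
            refine ⟨0, fun _ _ => rfl, ?_⟩
            rw [Finset.prod_eq_zero (f := fun i => X i ^ (f i + e i)) (Finset.mem_univ i)
              (pow_eq_zero_of_le hi (hX i))]
            simp [asm]
      | succ d ih =>
        intro y hy f
        rw [pow_succ', Submodule.mul_smul] at hy
        refine span_smul_ind (p := fun y => ∃ c : (Fin r → Fin n) → N,
          (∀ e : Fin r → Fin n, ∑ i, (e i : ℕ) < d + 1 + ∑ i, f i → c e = 0) ∧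
            asm X ι c = (∏ i, X i ^ f i) • y) hy ⟨0, fun _ _ => rfl, by simp [asm]⟩ ?_ ?_
        · rintro _ _ ⟨u, hu, hu'⟩ ⟨v, hv, hv'⟩
          exact ⟨u + v, fun e he => by simp [hu e he, hv e he], by rw [asm_add, hu', hv', smul_add]⟩
        · rintro _ ⟨i, rfl⟩ q hq
          obtain ⟨c, hc, hc'⟩ := ih q hq (f + Pi.single i 1)
          refine ⟨c, fun e he => hc e ?_, ?_⟩
          · simp only [Pi.add_apply, Finset.sum_add_distrib, Finset.sum_pi_single',
              Finset.mem_univ, if_true]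
            omega
          · rw [hc', smul_smul]
            congr 1
            simp only [Pi.add_apply, pow_add, Finset.prod_mul_distrib]
            rw [Finset.prod_eq_single i (f := fun j => X j ^ (Pi.single i 1 : Fin r → ℕ) j)]
            · simp
            · intro b _ hb
              simp [Pi.single_eq_of_ne hb]
            · simp
    intro h e he
    obtain ⟨c', hc', hcc⟩ := key d _ h 0
    simp only [Pi.zero_apply, pow_zero, Finset.prod_const_one, one_smul] at hcc
    rw [← hf.1 hcc]
    exact hc' e (by simpa using he)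
  · intro h
    refine Submodule.sum_mem _ fun e _ => ?_
    by_cases he : ∑ i, (e i : ℕ) < d
    · simp [h e he]
    · exact Submodule.smul_mem_smul (mono_mem X _ (not_lt.1 he)) Submodule.mem_top

variable {w : ℕ → U} {g : ℕ → A}

/-- Reading the initial form. -/
lemma init_iff (hX : ∀ i, X i ^ n = 0) (hf : MU.FreeOn X n ι)
    (hι : ∀ (u : U) x, ι (u • x) = φ u • ι x) {l d : ℕ}
    (hg : ∀ i < l, g i - φ (w i) ∈ Ideal.span (range X)) (c : (Fin r → Fin n) → N)
    (hc : ∀ e : Fin r → Fin n, ∑ i, (e i : ℕ) < d → c e = 0) :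
    asm X ι c ∈ Ideal.span (g '' Iio l) • (Ideal.span (range X) ^ d • (⊤ : Submodule A M)) ⊔
        Ideal.span (range X) ^ (d + 1) • ⊤ ↔
      ∀ e : Fin r → Fin n, ∑ i, (e i : ℕ) = d →
        c e ∈ Ideal.span (w '' Iio l) • (⊤ : Submodule U N) := by
  have hup : ∀ a ∈ Ideal.span (range X), ∀ q ∈ Ideal.span (range X) ^ d • (⊤ : Submodule A M),
      a • q ∈ Ideal.span (range X) ^ (d + 1) • (⊤ : Submodule A M) := by
    intro a ha q hq
    rw [pow_succ', Submodule.mul_smul]
    exact Submodule.smul_mem_smul ha hq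
  constructor
  · intro h
    obtain ⟨y, hy, z, hz, hyz⟩ := Submodule.mem_sup.1 h
    obtain ⟨c', hc', hy'⟩ : ∃ c' : (Fin r → Fin n) → N, (∀ e : Fin r → Fin n,
        c' e ∈ Ideal.span (w '' Iio l) • (⊤ : Submodule U N)) ∧
        y - asm X ι c' ∈ Ideal.span (range X) ^ (d + 1) • (⊤ : Submodule A M) := by
      refine span_smul_ind (p := fun y => ∃ c' : (Fin r → Fin n) → N, (∀ e : Fin r → Fin n,
        c' e ∈ Ideal.span (w '' Iio l) • (⊤ : Submodule U N)) ∧
        y - asm X ι c' ∈ Ideal.span (range X) ^ (d + 1) • (⊤ : Submodule A M)) hy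
        ⟨0, fun _ => zero_mem _, by simp [asm]⟩ ?_ ?_
      · rintro a b ⟨u, hu, hu'⟩ ⟨v, hv, hv'⟩
        refine ⟨u + v, fun e => add_mem (hu e) (hv e), ?_⟩
        rw [asm_add, add_sub_add_comm]
        exact add_mem hu' hv'
      · rintro _ ⟨i, hi, rfl⟩ q hq
        obtain ⟨b, hb⟩ := hf.2 q
        refine ⟨w i • b, fun e => Submodule.smul_mem_smul (Ideal.subset_span ⟨i, hi, rfl⟩)
          Submodule.mem_top, ?_⟩
        rw [asm_smul hι, show asm X ι b = q from hb, ← sub_smul]
        exact hup _ (hg i hi) q hq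
    intro e he
    have : asm X ι (c - c') ∈ Ideal.span (range X) ^ (d + 1) • (⊤ : Submodule A M) := by
      rw [asm_sub, ← hyz, add_sub_right_comm]
      exact add_mem hy' hz
    have h0 := (mem_filt hX hf _ _).1 this e (by omega)
    rw [Pi.sub_apply, sub_eq_zero] at h0
    exact h0 ▸ hc' e
  · intro h
    refine Submodule.sum_mem _ fun e _ => ?_
    rcases lt_trichotomy (∑ i, (e i : ℕ)) d with he | he | he
    · simp [hc e he]
    · refine span_smul_ind (p := fun x => (∏ i, X i ^ (e i : ℕ)) • ι x ∈ _) (h e he) (by simp) ?_ ?_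
      · intro a b ha hb
        rw [map_add, smul_add]
        exact add_mem ha hb
      · rintro _ ⟨i, hi, rfl⟩ q -
        have hq : (∏ i, X i ^ (e i : ℕ)) • ι q ∈ Ideal.span (range X) ^ d • (⊤ : Submodule A M) :=
          Submodule.smul_mem_smul (mono_mem X _ he.ge) Submodule.mem_top
        have e1 : (∏ i, X i ^ (e i : ℕ)) • ι (w i • q) = g i • (∏ i, X i ^ (e i : ℕ)) • ι q +
            -(g i - φ (w i)) • (∏ i, X i ^ (e i : ℕ)) • ι q := by
          rw [hι, ← add_smul, smul_smul, smul_smul]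
          congr 1
          ring
        rw [e1]
        exact Submodule.add_mem_sup (Submodule.smul_mem_smul
          (Ideal.subset_span (mem_image_of_mem g hi)) hq) (hup _ (neg_mem (hg i hi)) _ hq)
    · exact Submodule.mem_sup_right (Submodule.smul_mem_smul (mono_mem X _ he) Submodule.mem_top)

lemma regOn_step (hX : ∀ i, X i ^ n = 0) (hf : MU.FreeOn X n ι)
    (hι : ∀ (u : U) x, ι (u • x) = φ u • ι x) {k : ℕ} (hw : MU.Reg w k N)
    (hg : ∀ i < k, g i - φ (w i) ∈ Ideal.span (range X)) (d : ℕ) :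
    RegOn g k (Ideal.span (range X) ^ d • (⊤ : Submodule A M))
      (Ideal.span (range X) ^ (d + 1) • ⊤) := by
  intro l hl x hx h
  obtain ⟨c, rfl⟩ : ∃ c, asm X ι c = x := hf.2 x
  have hc := (mem_filt hX hf _ _).1 hx
  have hg' : ∀ i < l, g i - φ (w i) ∈ Ideal.span (range X) := fun i hi => hg i (by omega)
  refine (init_iff hX hf hι hg' c hc).2 fun e he => hw l hl _ ?_
  refine (init_iff hX hf hι hg' (w l • c) (fun e he => by simp [hc e he])).1 ?_ e he
  rw [asm_smul hι, show φ (w l) = g l + -(g l - φ (w l)) by ring, add_smul]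
  refine add_mem h (Submodule.mem_sup_right ?_)
  rw [pow_succ', Submodule.mul_smul]
  exact Submodule.smul_mem_smul (neg_mem (hg l hl)) hx

lemma regOn_top (hX : ∀ i, X i ^ n = 0) (hf : MU.FreeOn X n ι)
    (hι : ∀ (u : U) x, ι (u • x) = φ u • ι x) {k : ℕ} (hw : MU.Reg w k N)
    (hg : ∀ i < k, g i - φ (w i) ∈ Ideal.span (range X)) (d : ℕ) :
    RegOn g k (⊤ : Submodule A M) (Ideal.span (range X) ^ d • ⊤) := by
  induction d with
  | zero => intro l _ x _ _; simp
  | succ d ih =>
    exact ih.trans (regOn_step hX hf hι hw hg d) le_top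
      (Submodule.smul_mono_left (Ideal.pow_le_pow_right (by omega)))

/-- The deformed sequence is weakly regular. -/
theorem h2_reg (hX : ∀ i, X i ^ n = 0) (hf : MU.FreeOn X n ι)
    (hι : ∀ (u : U) x, ι (u • x) = φ u • ι x) {k : ℕ} (hw : MU.Reg w k N)
    (hg : ∀ i < k, g i - φ (w i) ∈ Ideal.span (range X)) : MU.Reg g k M := by
  have h0 : Ideal.span (range X) ^ (r * n + 1) • (⊤ : Submodule A M) = ⊥ := by
    refine (Submodule.eq_bot_iff _).2 fun x hx => ?_
    obtain ⟨c, rfl⟩ : ∃ c, asm X ι c = x := hf.2 x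
    have : c = 0 := funext fun e => (mem_filt hX hf _ _).1 hx e (by
      have : ∑ i, (e i : ℕ) ≤ ∑ _i : Fin r, n := Finset.sum_le_sum fun i _ => (e i).2.le
      simp only [Finset.sum_const, Finset.card_univ, Fintype.card_fin, smul_eq_mul] at this
      omega)
    simp [this, asm]
  intro l hl x hx
  have := regOn_top hX hf hι hw hg (r * n + 1) l hl x Submodule.mem_top
  rw [h0, sup_bot_eq] at this
  exact this hx

/-- An element of the ideal and of the filtration has its coefficients in the filtration. -/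
theorem h2_if (hX : ∀ i, X i ^ n = 0) (hf : MU.FreeOn X n ι)
    (hι : ∀ (u : U) x, ι (u • x) = φ u • ι x) {k : ℕ} (hw : MU.Reg w k N)
    (hg : ∀ i < k, g i - φ (w i) ∈ Ideal.span (range X)) (d : ℕ) (x : M)
    (hx : x ∈ Ideal.span (g '' Iio k) • (⊤ : Submodule A M))
    (hd : x ∈ Ideal.span (range X) ^ d • (⊤ : Submodule A M)) :
    x ∈ Ideal.span (g '' Iio k) • (Ideal.span (range X) ^ d • (⊤ : Submodule A M)) :=
  (regOn_top hX hf hι hw hg d).inter x hx hd

/-- The initial form of an element of the deformed ideal lies in the ideal. -/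
theorem h2_init (hX : ∀ i, X i ^ n = 0) (hf : MU.FreeOn X n ι)
    (hι : ∀ (u : U) x, ι (u • x) = φ u • ι x) {k : ℕ} (hw : MU.Reg w k N)
    (hg : ∀ i < k, g i - φ (w i) ∈ Ideal.span (range X)) (d : ℕ) (x : M)
    (c : (Fin r → Fin n) → N) (hc : ∀ e : Fin r → Fin n, ∑ i, (e i : ℕ) < d → c e = 0)
    (hx : x ∈ Ideal.span (g '' Iio k) • (⊤ : Submodule A M))
    (hd : x - asm X ι c ∈ Ideal.span (range X) ^ (d + 1) • (⊤ : Submodule A M))
    (e : Fin r → Fin n) (he : ∑ i, (e i : ℕ) = d) :
    c e ∈ Ideal.span (w '' Iio k) • (⊤ : Submodule U N) := by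
  refine (init_iff hX hf hι hg c hc).1 ?_ e he
  rw [show asm X ι c = x + -(x - asm X ι c) by abel]
  refine Submodule.add_mem_sup (h2_if hX hf hι hw hg d x hx ?_) (neg_mem hd)
  rw [show x = asm X ι c + (x - asm X ι c) by abel]
  exact add_mem ((mem_filt hX hf _ _).2 hc)
    (Submodule.smul_mono_left (Ideal.pow_le_pow_right (by omega)) hd)

/-- The coefficients of an integral polynomial. -/
lemma asm_poly (hX : ∀ i, X i ^ n = 0) (P : MvPolynomial (Fin r) ℤ) (v : N) :
    MvPolynomial.aeval X P • ι v = asm X ι fun e : Fin r → Fin n =>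
      P.coeff (Finsupp.equivFunOnFinite.symm fun i => (e i : ℕ)) • v := by
  classical
  induction P using MvPolynomial.induction_on' with
  | add p q hp hq =>
    rw [map_add, add_smul, hp, hq, ← asm_add]
    congr 1
    ext e
    simp [add_smul]
  | monomial f z =>
    rw [MvPolynomial.aeval_monomial, Finsupp.prod_fintype _ _ (by simp)]
    by_cases hlt : ∀ i, f i < n
    · unfold asm
      rw [Finset.sum_eq_single (fun i => (⟨_, hlt i⟩ : Fin n))]
      · beta_reduce
        rw [MvPolynomial.coeff_monomial, if_pos (by ext i; simp), map_zsmul, mul_comm, mul_smul]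
        simp [Int.cast_smul_eq_zsmul]
      · intro b _ hb
        beta_reduce
        rw [MvPolynomial.coeff_monomial, if_neg, zero_smul, map_zero, smul_zero]
        rintro rfl
        exact hb (funext fun i => Fin.ext (by simp))
      · simp
    · push Not at hlt
      obtain ⟨i, hi⟩ := hlt
      rw [Finset.prod_eq_zero (f := fun i => X i ^ f i) (Finset.mem_univ i)
        (pow_eq_zero_of_le hi (hX i)), mul_zero, zero_smul]
      refine (Finset.sum_eq_zero fun e _ => ?_).symm
      beta_reduce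
      rw [MvPolynomial.coeff_monomial, if_neg, zero_smul, map_zero, smul_zero]
      rintro rfl
      have := (e i).2
      simp at hi
      omega

end Fil

theorem h2 : S_H2 := by
  intro U A N M _ _ _ _ _ _ φ r n k X ι w g hX _ hf hι hw hg
  refine ⟨Fil.h2_reg hX hf hι hw hg, fun d P v x hP hd hx e he => ?_⟩
  have hdeg : ∀ f : Fin r →₀ ℕ, ∑ i, f i ≠ d → P.coeff f = 0 := fun f hf => by
    refine hP.coeff_eq_zero ?_
    rwa [Finsupp.degree_eq_sum]
  by_cases hed : ∑ i, e i = d
  · rw [Fil.asm_poly hX] at hd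
    have := Fil.h2_init hX hf hι hw hg d x _ (fun e he => by
      rw [hdeg _ (by simpa using he.ne), zero_smul]) hx hd (fun i => ⟨_, he i⟩) hed
    rwa [show (Finsupp.equivFunOnFinite.symm fun i => e i) = e by ext i; simp] at this
  · rw [hdeg e hed, zero_smul]
    exact zero_mem _

end Pool.Agent.MP_826def_gt.BH
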