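import Pool.Agent.MP_826def_gt.BH.Spec

/-!
The tower is exact up to a bounded power of `E`.
-/

namespace Pool.Agent.MP_826def_gt.BH

open Set MU

section

variable {A : Type 1} [CommRing A] {f g : ℕ → A} {E : A} {r : ℕ}

theorem span_mul {c : A} {J : Ideal A} {k : ℕ} (h : ∀ i < k, c * f i ∈ J) :
    ∀ x ∈ Ik f k, c * x ∈ J := by
  intro x hx
  have : Ik f k ≤ Submodule.comap (LinearMap.mulLeft A c) J := by
    refine Ideal.span_le.mpr ?_
    rintro _ ⟨i, hi, rfl⟩
    exact h i hi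
  exact this hx

theorem fg (hu : ∀ k < r, ∃ u, u ∣ E ∧ E * (f k - u * g k) ∈ Ik f k) :
    ∀ k ≤ r, ∀ x ∈ Ik f k, E ^ k * x ∈ Ik g k := by
  intro k
  induction k with
  | zero => intro _ x hx; simpa [Ik_zero] using hx
  | succ k ih =>
    intro hk
    refine span_mul fun i hi => ?_
    rcases Nat.lt_succ_iff_lt_or_eq.mp hi with h | rfl
    · rw [pow_succ', mul_assoc]
      exact Ideal.mul_mem_left _ _ (Ik_mono (Nat.le_succ k) (ih (by omega) _ (mem_Ik h)))
    · obtain ⟨u, -, h⟩ := hu i (by omega)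
      have e : E ^ (i + 1) * f i = E ^ i * (E * (f i - u * g i)) + E ^ (i + 1) * u * g i := by ring
      rw [e]
      exact Ideal.add_mem _ (Ik_mono (Nat.le_succ i) (ih (by omega) _ h))
        (Ideal.mul_mem_left _ _ (mem_Ik (Nat.lt_succ_self i)))

theorem gf (hu : ∀ k < r, ∃ u, u ∣ E ∧ E * (f k - u * g k) ∈ Ik f k) {k : ℕ} (hk : k ≤ r) :
    ∀ x ∈ Ik g k, E ^ 2 * x ∈ Ik f k := by
  refine span_mul fun i hi => ?_
  obtain ⟨u, ⟨v, hv⟩, h⟩ := hu i (by omega)
  have e : E ^ 2 * g i = v * E * f i - v * (E * (f i - u * g i)) := by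
    rw [pow_two]; nth_rewrite 2 [hv]; ring
  rw [e]
  exact Ideal.sub_mem _ (Ideal.mul_mem_left _ _ (mem_Ik hi))
    (Ideal.mul_mem_left _ _ (Ik_mono hi.le h))

theorem smul_tr {M : Type 1} [AddCommGroup M] [Module A M] {c : A} {I J : Ideal A}
    (h : ∀ x ∈ I, c * x ∈ J) {m : M} (hm : m ∈ I • (⊤ : Submodule A M)) :
    c • m ∈ J • (⊤ : Submodule A M) := by
  refine Submodule.smul_induction_on hm (fun x hx y _ => ?_) fun x y hx hy => ?_
  · rw [← mul_smul]; exact Submodule.smul_mem_smul (h x hx) trivial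
  · rw [smul_add]; exact Submodule.add_mem _ hx hy

theorem almost_reg {M : Type 1} [AddCommGroup M] [Module A M]
    (hu : ∀ k < r, ∃ u, u ∣ E ∧ E * (f k - u * g k) ∈ Ik f k) (hR : Reg g r M) {k : ℕ} (hk : k < r)
    {x : M} (hx : f k • x ∈ Ik f k • (⊤ : Submodule A M)) :
    E ^ (k + 4) • x ∈ Ik f k • (⊤ : Submodule A M) := by
  obtain ⟨u, ⟨v, hv⟩, h⟩ := hu k hk
  have h1 : (E * u * g k) • x ∈ Ik f k • (⊤ : Submodule A M) := by
    have e : E * u * g k = E * f k - E * (f k - u * g k) := by ring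
    rw [e, sub_smul, mul_smul]
    exact Submodule.sub_mem _ (Submodule.smul_mem _ _ hx) (Submodule.smul_mem_smul h trivial)
  have h2 := smul_tr (fg hu k hk.le) h1
  have h3 : g k • ((E ^ (k + 1) * u) • x) ∈ Ik g k • (⊤ : Submodule A M) := by
    rw [← mul_smul] at h2 ⊢
    have e : g k * (E ^ (k + 1) * u) = E ^ k * (E * u * g k) := by ring
    rwa [e]
  have h4 := smul_tr (gf hu hk.le) (hR k hk _ h3)
  have h5 := Submodule.smul_mem _ v h4
  rw [← mul_smul, ← mul_smul] at h5
  have e : E ^ (k + 4) = v * E ^ 2 * (E ^ (k + 1) * u) := by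
    rw [pow_succ]; nth_rewrite 2 [hv]; ring
  rwa [e]

end

/-- The exponents. -/
def cc : ℕ → ℕ
  | 0 => 0
  | k + 1 => 3 * cc k + k + 4

theorem h3 : S_H3 := by
  intro r
  refine ⟨cc r, fun A _ f g E M _ _ π γ hu hR hex => ⟨fg hu r le_rfl, ?_⟩⟩
  have key : ∀ k ≤ r, (∀ x ∈ Ik f k • (⊤ : Submodule A (M 0)), up M π k x = 0) ∧
      (∀ x : M 0, up M π k x = 0 → E ^ cc k • x ∈ Ik f k • (⊤ : Submodule A (M 0))) ∧
      ∀ z : M k, ∃ x, up M π k x = E ^ cc k • z := by
    intro k
    induction k with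
    | zero =>
      intro _
      refine ⟨fun x hx => ?_, fun x hx => ?_, fun z => ⟨z, by simp [up, cc]⟩⟩
      · simpa [Ik_zero, up] using hx
      · have : x = 0 := hx
        simp [this]
    | succ k ih =>
      intro hk
      obtain ⟨i1, i2, i3⟩ := ih (by omega)
      obtain ⟨e1, e2, e3⟩ := hex k (by omega)
      have hup : ∀ x, up M π (k + 1) x = π k (up M π k x) := fun _ => rfl
      refine ⟨fun x hx => ?_, fun x hx => ?_, fun z => ?_⟩
      · rw [Ik_succ, Submodule.sup_smul] at hx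
        obtain ⟨y, hy, z, hz, rfl⟩ := Submodule.mem_sup.mp hx
        rw [Submodule.ideal_span_singleton_smul] at hz
        obtain ⟨t, -, rfl⟩ := (Submodule.mem_smul_pointwise_iff_exists _ _ _).mp hz
        rw [hup, map_add, i1 y hy, zero_add, map_smul]
        exact (e1 _).mpr ⟨_, rfl⟩
      · obtain ⟨y, hy⟩ := (e1 _).mp (hup x ▸ hx)
        obtain ⟨y', hy'⟩ := i3 y
        have h0 : up M π k (E ^ cc k • x - f k • y') = 0 := by
          rw [map_sub, map_smul, map_smul, hy', ← hy, smul_comm, sub_self]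
        have h1 := Submodule.smul_mono_left (Ik_mono (Nat.le_succ k)) (i2 _ h0)
        have h2 : E ^ cc k • f k • y' ∈ Ik f (k + 1) • (⊤ : Submodule A (M 0)) :=
          Submodule.smul_mem _ _ (Submodule.smul_mem_smul (mem_Ik (Nat.lt_succ_self k)) trivial)
        have h3 := Submodule.smul_mem _ (E ^ (cc k + k + 4)) (Submodule.add_mem _ h1 h2)
        rw [← smul_add, sub_add_cancel, ← mul_smul, ← mul_smul, ← pow_add, ← pow_add] at h3
        have e : cc (k + 1) = cc k + k + 4 + cc k + cc k := by rw [cc]; ring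
        rwa [e]
      · obtain ⟨y, hy⟩ := i3 (γ k z)
        have h0 : up M π k (f k • y) = 0 := by
          have h' : f k • γ k z = 0 := (e3 _).mpr ⟨z, rfl⟩
          rw [map_smul, hy, smul_comm, h', smul_zero]
        have h1 := i2 _ h0
        rw [smul_comm] at h1
        have h2 := i1 _ (almost_reg hu hR (by omega) h1)
        rw [map_smul, map_smul, hy, ← map_smul, ← map_smul, ← map_smul] at h2
        obtain ⟨t, ht⟩ := (e2 _).mp h2
        obtain ⟨t', ht'⟩ := i3 t
        refine ⟨t', ?_⟩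
        rw [hup, ht', map_smul, ht, ← mul_smul, ← mul_smul, ← mul_smul, ← pow_add, ← pow_add,
          ← pow_add, cc]
        congr 2
        ring
  exact (key r le_rfl).2.1

end Pool.Agent.MP_826def_gt.BH
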