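import Pool.Agent.MP_826def_gt.BH.Spec

/-!
The final contradiction of the level algebra.
-/

namespace Pool.Agent.MP_826def_gt.BH

open Set MU

theorem vs_zero {U : Type 1} [CommRing U] {a : ℕ → ℕ → U} (h : FG a) : vs a 0 = 2 := by
  have h1 := h.unit 1
  simp only [if_true] at h1
  simp [vs, wc, Finset.sum_range_succ, h.symm 0 1, h1]
  norm_num

theorem top_smul_eq {A : Type 1} [CommRing A] (I : Ideal A) : I • (⊤ : Submodule A A) = I := by
  simp

theorem h5 (h1a : S_H1a) (h1b : S_H1b) (h2 : S_H2) (h3 : S_H3) (h4 : S_H4) : S_H := by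
  intro r i₀ i₁ hne
  obtain ⟨c3, H3⟩ := h3 r
  refine ⟨(c3 + r + 1) * 4 ^ r + 2 ^ r, ?_⟩
  intro L j' s hj hL hs U A N _ _ _ _ a φ X M _ _ ι η ρ π γ hF hR h1 hN hX hA hM hι hρ hex h0
  have hr : 1 ≤ r := i₀.pos
  obtain ⟨y, p, hP, hp⟩ := h1a U A a φ r X hF fun i => ⟨_, hX i⟩
  obtain ⟨g, E, Q, Dl, dE, dD, lv⟩ := h1b A r X _ y p hr hP
  have hg : ∀ i < r, g i - φ (vs a i) ∈ mX X := fun i hi => hp i hi.le ▸ lv.hg i hi
  obtain ⟨t1, t2⟩ := H3 A _ g E M π γ lv.hu (h2 U A N (M 0) φ r _ r X ι _ g hX hA hM hι hN hg).1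
    fun k hk => by simpa only [fd, dif_pos hk] using hex ⟨k, hk⟩
  obtain ⟨ν, o, W, hν, ho, hW, hz⟩ := h4 A r X i₀ i₁ L j' s hne hj hL hX
  set j := 2 ^ L * j' with hjd
  set Z := (∏ i, X i) ^ j with hZ
  have z1 : E ^ c3 * (2 ^ ν * ((o : A) * Z + 2 * W)) ∈ Ik (fd (cf φ a) X) r := by
    have := Submodule.mem_map_of_mem (f := ρ) (t2 _ h0)
    rw [Submodule.map_smul'', map_smul, hρ, hz] at this
    exact (top_smul_eq _).le (Submodule.smul_mono le_rfl le_top this)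
  have z2 : E ^ r * (E * (2 - Q * Dl)) ∈ Ik g r := by
    have := t1 _ lv.h2
    rwa [hp 0 (by omega), vs_zero hF, map_ofNat] at this
  have z3 : E ^ (c3 + r + 1) * Dl ^ ν * (Q ^ ν * ((o : A) * Z + Q * Dl * W)) ∈ Ik g r := by
    obtain ⟨u, hu⟩ := sub_dvd_pow_sub_pow 2 (Q * Dl) ν
    obtain ⟨v, hv⟩ := sub_dvd_pow_sub_pow 2 (Q * Dl) (ν + 1)
    have e : E ^ (c3 + r + 1) * Dl ^ ν * (Q ^ ν * ((o : A) * Z + Q * Dl * W)) =
        E * (E ^ r * (E ^ c3 * (2 ^ ν * ((o : A) * Z + 2 * W)))) -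
          E ^ c3 * (u * o * Z + v * W) * (E ^ r * (E * (2 - Q * Dl))) := by
      have e1 : (2 : A) ^ ν = (Q * Dl) ^ ν + (2 - Q * Dl) * u := by rw [← hu]; ring
      have e2 : (2 : A) ^ ν * 2 = (Q * Dl) ^ (ν + 1) + (2 - Q * Dl) * v := by
        rw [← hv]; ring
      have e3 : (2 : A) ^ ν * ((o : A) * Z + 2 * W) = 2 ^ ν * (o * Z) + 2 ^ ν * 2 * W := by ring
      rw [e3, e2, e1]
      ring
    rw [e]
    exact Ideal.sub_mem _ (Ideal.mul_mem_left _ _ (t1 _ z1)) (Ideal.mul_mem_left _ _ z2)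
  obtain ⟨P, hP1, hP2, hP3⟩ := (lv.iE.pow (c3 + r + 1)).mul (lv.iD.pow ν)
  set d := (c3 + r + 1) * dE + ν * dD with hd
  have hds : d ≤ s := by
    have a1 := Nat.mul_le_mul_left (c3 + r + 1) lv.dE_le
    have a2 := Nat.mul_le_mul hν lv.dD_le
    refine le_trans (Nat.add_le_add a1 a2) (le_trans ?_ hs)
    rw [mul_add, mul_one, mul_comm (Nat.log 2 _)]
    exact Nat.add_le_add (Nat.le_add_right _ _) (Nat.mul_le_mul_right _ (Nat.le_add_left _ _))
  obtain ⟨e, he⟩ := MvPolynomial.ne_zero_iff.mp hP2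
  rw [MvPolynomial.coeff_map] at he
  have hodd : Odd (P.coeff e) := by
    rw [← Int.not_even_iff_odd, even_iff_two_dvd]
    exact fun h => he ((ZMod.intCast_zmod_eq_zero_iff_dvd _ 2).mpr h)
  have hed : ∑ i, e i = d := by
    rw [← hP1 (fun h => he (by rw [h, map_zero])), Finsupp.weight_apply,
      Finsupp.sum_fintype _ _ (by simp)]
    simp
  let J : Fin r →₀ ℕ := Finsupp.equivFunOnFinite.symm fun _ => j
  have hJ : ∀ i, J i = j := fun _ => rfl
  have hm : MvPolynomial.aeval X (MvPolynomial.monomial J o) = (o : A) * Z := by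
    rw [MvPolynomial.aeval_monomial, Finsupp.prod_fintype _ _ (by simp), hZ, ← Finset.prod_pow]
    simp [hJ]
  have hh : (MvPolynomial.monomial J o).IsHomogeneous (r * j) :=
    MvPolynomial.isHomogeneous_monomial _ (by
      rw [Finsupp.degree_eq_sum]; simp [hJ])
  have m1 : (o : A) * Z ∈ mX X ^ (r * j) := hm ▸ aeval_mem hh
  have m2 : (o : A) * Z + Q * Dl * W ∈ mX X ^ (r * j) :=
    Ideal.add_mem _ m1 (Ideal.mul_mem_left _ _ hW)
  have m3 : Q ^ ν - φ (vs a r) ^ ν ∈ mX X ^ 1 := by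
    obtain ⟨u, hu⟩ := sub_dvd_pow_sub_pow Q (φ (vs a r)) ν
    rw [hu, pow_one]
    exact Ideal.mul_mem_right _ _ (hp r le_rfl ▸ lv.hQ)
  have m4 : Dl ∈ mX X ^ 1 := Ideal.pow_le_pow_right lv.dD_pos lv.iD.mem
  have m5 := aeval_mem (X := X) hP1
  have fin := (h2 U A U A φ r _ r X (φ : U →+ A) _ g hX hA hA (fun u v => by simp)
    (fun k hk => hR k (by omega)) hg).2 (d + r * j) (P * MvPolynomial.monomial J o) (vs a r ^ ν) _
    (hP1.mul hh) ?_ ((top_smul_eq _).ge z3) (e + J) fun i => by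
      have : e i ≤ ∑ i, e i := Finset.single_le_sum (fun _ _ => Nat.zero_le _) (Finset.mem_univ i)
      rw [Finsupp.add_apply, hJ]
      omega
  · rw [MvPolynomial.coeff_mul_monomial, top_smul_eq] at fin
    obtain ⟨t, ht⟩ := hodd.mul ho
    have f1 : vs a r ^ ν ∈ Ik (vs a) r := by
      have h2' : (2 : U) ∈ Ik (vs a) r := vs_zero hF ▸ mem_Ik hr
      have := Ideal.sub_mem _ fin (Ideal.mul_mem_right ((t : U) * vs a r ^ ν) _ h2')
      rw [ht, zsmul_eq_mul] at this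
      push_cast at this
      rwa [show (2 * (t : U) + 1) * vs a r ^ ν - 2 * ((t : U) * vs a r ^ ν) = vs a r ^ ν by ring]
        at this
    have f2 : ∀ n, vs a r ^ n ∈ Ik (vs a) r → (1 : U) ∈ Ik (vs a) r := by
      intro n
      induction n with
      | zero => simp
      | succ n ih =>
        intro h
        refine ih ((top_smul_eq _).le (hR r (Nat.lt_succ_self r) _ ((top_smul_eq _).ge ?_)))
        rwa [smul_eq_mul, ← pow_succ']
    exact h1 (f2 ν f1)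
  · rw [top_smul_eq, map_mul, hm]
    have e1 : E ^ (c3 + r + 1) * Dl ^ ν * (Q ^ ν * ((o : A) * Z + Q * Dl * W)) -
        (MvPolynomial.aeval X P * ((o : A) * Z)) • (φ : U →+ A) (vs a r ^ ν) =
        Q ^ ν * ((E ^ (c3 + r + 1) * Dl ^ ν - MvPolynomial.aeval X P) *
          ((o : A) * Z + Q * Dl * W)) +
        MvPolynomial.aeval X P * (Q ^ ν - φ (vs a r) ^ ν) * ((o : A) * Z + Q * Dl * W) +
        φ (vs a r) ^ ν * Q * (MvPolynomial.aeval X P * Dl * W) := by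
      simp only [AddMonoidHom.coe_coe, map_pow, smul_eq_mul]
      ring
    rw [e1, add_right_comm d, pow_add]
    refine Ideal.add_mem _ (Ideal.add_mem _ (Ideal.mul_mem_left _ _ (Ideal.mul_mem_mul hP3 m2))
      (Ideal.mul_mem_mul ?_ m2)) (Ideal.mul_mem_left _ _ (Ideal.mul_mem_mul ?_ hW))
    · rw [pow_add]; exact Ideal.mul_mem_mul m5 m3
    · rw [pow_add]; exact Ideal.mul_mem_mul m5 m4

end Pool.Agent.MP_826def_gt.BH
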