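import Pool.Agent.MP_826def_gt.BH.H1a
import Pool.Agent.MP_826def_gt.BH.H1b
import Pool.Agent.MP_826def_gt.BH.H2
import Pool.Agent.MP_826def_gt.BH.H3
import Pool.Agent.MP_826def_gt.BH.H4
import Pool.Agent.MP_826def_gt.BH.H5

/-!
The level algebra.
-/

namespace Pool.Agent.MP_826def_gt.BH

theorem sH (hF : MU.S_Fm) : MU.S_H := h5 (h1a hF) h1b h2 h3 h4

end Pool.Agent.MP_826def_gt.BH
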