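import Pool.Agent.MP_826def_gt.BH.Spec

/-!
Coefficients of elements of the powers of the ideal of the variables.
-/

namespace Pool.Agent.MP_826def_gt.BH

open Set MU

noncomputable section

section

variable {U A N M : Type 1} [CommRing U] [CommRing A] [AddCommGroup N] [Module U N]
  [AddCommGroup M] [Module A M] {φ : U →+* A} {r n : ℕ} {X : Fin r → A} {ι : N →+ M}

theorem co_mon (hn : ∀ i, X i ^ n = 0) (s : Fin r → ℕ) (v : N) :
    (∏ i, X i ^ s i) • ι v =
      Tc X n ι fun e => if (fun i => (e i : ℕ)) = s then v else 0 := by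
  classical
  by_cases h : ∀ i, s i < n
  · rw [Tc, Finset.sum_eq_single (fun i => (⟨s i, h i⟩ : Fin n))]
    · simp
    · intro e _ he
      rw [if_neg, map_zero, smul_zero]
      intro h'
      exact he (funext fun i => Fin.ext (congrFun h' i))
    · simp
  · push Not at h
    obtain ⟨i, hi⟩ := h
    have h0 : ∏ i, X i ^ s i = 0 :=
      Finset.prod_eq_zero (Finset.mem_univ i) (pow_eq_zero_of_le hi (hn i))
    rw [h0, zero_smul, Tc]
    refine (Finset.sum_eq_zero fun e _ => ?_).symm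
    rw [if_neg, map_zero, smul_zero]
    intro h'
    have := congrFun h' i
    have := (e i).2
    omega

theorem Tc_add (c c' : (Fin r → Fin n) → N) :
    Tc X n ι (c + c') = Tc X n ι c + Tc X n ι c' := by
  simp [Tc, Finset.sum_add_distrib]

/-- The elements whose coefficients vanish in degrees less than `d`. -/
def Wd (X : Fin r → A) (n : ℕ) (ι : N →+ M) (d : ℕ) : AddSubmonoid M where
  carrier := {x | ∃ c, (∀ e : Fin r → Fin n, ∑ i, (e i : ℕ) < d → c e = 0) ∧ x = Tc X n ι c}
  zero_mem' := ⟨0, fun _ _ => rfl, by simp [Tc]⟩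
  add_mem' := by
    rintro _ _ ⟨c, hc, rfl⟩ ⟨c', hc', rfl⟩
    exact ⟨c + c', fun e he => by simp [hc e he, hc' e he], (Tc_add c c').symm⟩

theorem mon_mem_Wd (hn : ∀ i, X i ^ n = 0) {d : ℕ} (s : Fin r → ℕ) (hs : d ≤ ∑ i, s i) (v : N) :
    (∏ i, X i ^ s i) • ι v ∈ Wd X n ι d := by
  refine ⟨_, fun e he => ?_, co_mon hn s v⟩
  rw [if_neg]
  rintro rfl
  exact absurd he (not_lt.2 hs)

theorem smul_mem_Wd (hn : ∀ i, X i ^ n = 0) (hι : ∀ (u : U) (v : N), ι (u • v) = φ u • ι v)
    {d d' : ℕ} (s : Fin r → ℕ) (hs : d' ≤ d + ∑ i, s i) (u : U) {x : M}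
    (hx : x ∈ Wd X n ι d) : ((∏ i, X i ^ s i) * φ u) • x ∈ Wd X n ι d' := by
  obtain ⟨c, hc, rfl⟩ := hx
  rw [Tc, Finset.smul_sum]
  refine AddSubmonoid.sum_mem _ fun e _ => ?_
  by_cases he : ∑ i, (e i : ℕ) < d
  · rw [hc e he, map_zero, smul_zero, smul_zero]
    exact zero_mem _
  · have e1 : ((∏ i, X i ^ s i) * φ u) • (∏ i, X i ^ (e i : ℕ)) • ι (c e) =
        (∏ i, X i ^ (s i + e i)) • ι (u • c e) := by
      rw [hι, smul_smul, smul_smul]
      congr 1
      simp only [pow_add, Finset.prod_mul_distrib]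
      ring
    rw [e1]
    refine mon_mem_Wd hn _ ?_ _
    rw [Finset.sum_add_distrib]
    omega

theorem mon_mem_pow {d : ℕ} (s : Fin r → ℕ) (hs : d ≤ ∑ i, s i) :
    ∏ i, X i ^ s i ∈ mX X ^ d := by
  refine Ideal.pow_le_pow_right hs ?_
  rw [← Finset.prod_pow_eq_pow_sum]
  exact Ideal.prod_mem_prod fun i _ => Ideal.pow_mem_pow (X_mem i) _

theorem any_smul_Wd (hn : ∀ i, X i ^ n = 0) (hφ : FreeOn X n (φ : U →+ A))
    (hι : ∀ (u : U) (v : N), ι (u • v) = φ u • ι v) {d : ℕ} (a : A) {x : M}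
    (hx : x ∈ Wd X n ι d) : a • x ∈ Wd X n ι d := by
  obtain ⟨u, rfl⟩ := hφ.2 a
  simp only [Finset.sum_smul, smul_eq_mul]
  exact AddSubmonoid.sum_mem _ fun e _ =>
    smul_mem_Wd hn hι (fun i => (e i : ℕ)) (Nat.le_add_right _ _) (u e) hx

theorem pow_smul_Wd (hn : ∀ i, X i ^ n = 0) (hφ : FreeOn X n (φ : U →+ A)) (hM : FreeOn X n ι)
    (hι : ∀ (u : U) (v : N), ι (u • v) = φ u • ι v) (d : ℕ) :
    ∀ x ∈ mX X ^ d • (⊤ : Submodule A M), x ∈ Wd X n ι d := by
  classical
  induction d with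
  | zero =>
    intro x _
    obtain ⟨c, rfl⟩ := hM.2 x
    exact ⟨c, fun e he => absurd he (Nat.not_lt_zero _), rfl⟩
  | succ d ih =>
    intro x hx
    rw [pow_succ', mul_smul] at hx
    refine Submodule.smul_induction_on hx (fun a ha y hy => ?_) fun _ _ => add_mem
    have hy' := ih y hy
    refine Submodule.span_induction (p := fun a _ => a • y ∈ Wd X n ι (d + 1)) ?_ ?_ ?_ ?_ ha
    · rintro _ ⟨i, rfl⟩
      have := smul_mem_Wd hn hι (d' := d + 1) (Pi.single i 1) (by simp) 1 hy'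
      rwa [map_one, mul_one, Finset.prod_eq_single i (fun j _ hj => by simp [hj]) (by simp),
        Pi.single_eq_same, pow_one] at this
    · rw [zero_smul]
      exact zero_mem _
    · intro a b _ _ h1 h2
      rw [add_smul]
      exact add_mem h1 h2
    · intro a b _ h1
      rw [smul_eq_mul, mul_smul]
      exact any_smul_Wd hn hφ hι a h1

end

theorem co : S_Co := by
  classical
  intro U A N M _ _ _ _ _ _ φ r n X ι hn hφ hM hι
  refine ⟨fun d c => ⟨fun h => ?_, fun h => ?_⟩, fun P v => ?_, fun x => ?_⟩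
  · obtain ⟨c', hc', e'⟩ := pow_smul_Wd hn hφ hM hι d _ h
    rw [show c = c' from hM.1 e']
    exact hc'
  · refine Submodule.sum_mem _ fun e _ => ?_
    by_cases he : ∑ i, (e i : ℕ) < d
    · rw [h e he, map_zero, smul_zero]
      exact zero_mem _
    · exact Submodule.smul_mem_smul (mon_mem_pow _ (not_lt.1 he)) Submodule.mem_top
  · induction P using MvPolynomial.induction_on' with
    | monomial s a =>
      rw [MvPolynomial.aeval_monomial, Finsupp.prod_fintype _ _ (by simp), mul_comm, mul_smul,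
        eq_intCast, Int.cast_smul_eq_zsmul, ← map_zsmul, co_mon hn]
      congr 1
      funext e
      rw [MvPolynomial.coeff_monomial]
      by_cases h : (fun i => (e i : ℕ)) = s
      · rw [if_pos h, if_pos]
        rw [h, Finsupp.equivFunOnFinite_symm_coe]
      · rw [if_neg h, if_neg, zero_smul]
        rintro rfl
        exact h rfl
    | add P Q hP hQ =>
      rw [map_add, add_smul, hP, hQ, ← Tc_add]
      congr 1
      funext e
      rw [MvPolynomial.coeff_add, add_smul, Pi.add_apply]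
  · obtain ⟨u, rfl⟩ := hφ.2 x
    refine ⟨∑ e : Fin r → Fin n, if ∑ i, (e i : ℕ) = 0 then u e else 0, ?_⟩
    rw [map_sum, ← Finset.sum_sub_distrib]
    refine Ideal.sum_mem _ fun e _ => ?_
    by_cases he : ∑ i, (e i : ℕ) = 0
    · have h0 : ∀ i, (e i : ℕ) = 0 := fun i =>
        Finset.sum_eq_zero_iff.1 he i (Finset.mem_univ i)
      simp [h0]
    · rw [if_neg he, map_zero, sub_zero, smul_eq_mul]
      have := mon_mem_pow (X := X) (d := 1) (fun i => (e i : ℕ)) (Nat.one_le_iff_ne_zero.2 he)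
      rw [pow_one] at this
      exact Ideal.mul_mem_right _ _ this

end

end Pool.Agent.MP_826def_gt.BH
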