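import Pool.Agent.MP_826def_gt.BH.Spec

/-!
Formal subset sums.
-/

namespace Pool.Agent.MP_826def_gt.BH

open Set MU

noncomputable section

/-- Nilpotent elements. -/
structure NP (A : Type 1) [CommRing A] where
  val : A
  nil : IsNilpotent val

theorem NP.ext' {A : Type 1} [CommRing A] {x y : NP A} (h : x.val = y.val) : x = y := by
  cases x; cases y; cases h; rfl

/-- The formal group structure on the nilpotent elements. -/
@[reducible] def npMon (hF : S_Fm) {U A : Type 1} [CommRing U] [CommRing A] {a : ℕ → ℕ → U}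
    (φ : U →+* A) (ha : FG a) (hu : ∀ i, cf φ a i 0 = if i = 1 then 1 else 0)
    (hs : ∀ i j, cf φ a i j = cf φ a j i) : CommMonoid (NP A) where
  mul x y := ⟨Fm (cf φ a) x.val y.val,
    ((hF A (cf φ a) x.val y.val).2.2.2 hu hs x.nil y.nil).2.2.1⟩
  one := ⟨0, IsNilpotent.zero⟩
  mul_assoc x y z := NP.ext' (ha.assoc A φ _ _ _ x.nil y.nil z.nil)
  mul_comm x y := NP.ext' ((hF A (cf φ a) x.val y.val).2.2.2 hu hs x.nil y.nil).1
  mul_one x := NP.ext' ((hF A (cf φ a) x.val x.val).2.2.2 hu hs x.nil x.nil).2.1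
  one_mul x := NP.ext'
    (((hF A (cf φ a) 0 x.val).2.2.2 hu hs IsNilpotent.zero x.nil).1.trans
      ((hF A (cf φ a) x.val x.val).2.2.2 hu hs x.nil x.nil).2.1)

theorem wc_cf {U A : Type 1} [CommRing U] [CommRing A] (φ : U →+* A) (a : ℕ → ℕ → U) (m : ℕ) :
    wc (cf φ a) m = φ (wc a m) := by
  simp [wc, cf, map_sum]

theorem h1a (hF : S_Fm) : S_H1a := by
  classical
  intro U A _ _ a φ r X ha hX
  have hu : ∀ i, cf φ a i 0 = if i = 1 then 1 else 0 := fun i => by
    simp only [cf, ha.unit i]; split_ifs <;> simp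
  have hs : ∀ i j, cf φ a i j = cf φ a j i := fun i j => by simp only [cf, ha.symm i j]
  let _ : CommMonoid (NP A) := npMon hF φ ha hu hs
  have hmul : ∀ x y : NP A, (x * y).val = Fm (cf φ a) x.val y.val := fun _ _ => rfl
  have hone : (1 : NP A).val = 0 := rfl
  have hB := fun x y : NP A => (hF A (cf φ a) x.val y.val).2.2.2 hu hs x.nil y.nil
  have hI : ∀ (I : Ideal A) (z : Fin r → NP A) (S : Finset (Fin r)),
      (∀ i ∈ S, (z i).val ∈ I) → (∏ i ∈ S, z i).val ∈ I := by
    intro I z S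
    induction S using Finset.induction_on with
    | empty => intro _; rw [Finset.prod_empty, hone]; exact I.zero_mem
    | insert i S hi ih =>
      intro h
      rw [Finset.prod_insert hi, hmul]
      obtain ⟨c, hc⟩ := (hB (z i) (∏ j ∈ S, z j)).2.2.2.1
      rw [eq_add_of_sub_eq hc]
      exact I.add_mem (I.mul_mem_right _ (h i (Finset.mem_insert_self _ _)))
        (ih fun j hj => h j (Finset.mem_insert_of_mem hj))
  let x : Fin r → NP A := fun i => ⟨X i, hX i⟩
  have hx : ∀ i, (x i).val = X i := fun _ => rfl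
  let y : Finset (Fin r) → A := fun S => (∏ i ∈ S, x i).val
  have hy : ∀ S, y S = (∏ i ∈ S, x i).val := fun _ => rfl
  have hn : ∀ S : Finset (Fin r), ∃ n, y S ^ n = 0 := fun S => (∏ i ∈ S, x i).nil
  choose n hn using hn
  obtain ⟨N, hN1, hN⟩ : ∃ N, 2 ^ r ≤ N ∧ ∀ S, y S ^ N = 0 :=
    ⟨2 ^ r + Finset.univ.sup n, Nat.le_add_right _ _, fun S =>
      pow_eq_zero_of_le ((Finset.le_sup (f := n) (Finset.mem_univ S)).trans (Nat.le_add_left _ _))
        (hn S)⟩
  let p : Polynomial A :=
    ∑ m ∈ Finset.range N, Polynomial.monomial (m + 1) (wc (cf φ a) (m + 1))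
  have hp : ∀ S, p.eval (y S) = (∏ i ∈ S, (x i * x i)).val := by
    intro S
    rw [Finset.prod_mul_distrib, hmul, (hB _ (∏ i ∈ S, x i)).2.2.2.2.2.1, ← hy,
      (hF A (cf φ a) (y S) (y S)).2.1 N (hN S), Finset.mul_sum]
    simp only [p, Polynomial.eval_finsetSum, Polynomial.eval_monomial]
    exact Finset.sum_congr rfl fun m _ => by ring
  have hfd : ∀ i : Fin r, (x i * x i).val = fd (cf φ a) X i := fun i => by
    rw [hmul, hx, fd, dif_pos i.2]
  have hsing : ∀ i, y {i} = X i := fun i => by rw [hy, Finset.prod_singleton]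
  refine ⟨y, p, ⟨?_, hsing, ?_, ?_, ?_⟩, ?_⟩
  · rw [hy, Finset.prod_empty, hone]
  · intro S
    induction S using Finset.induction_on with
    | empty => rw [hy, Finset.prod_empty, hone]; simp
    | insert i S hi ih =>
      obtain ⟨c, hc⟩ := (hB (x i) (∏ j ∈ S, x j)).2.2.2.2.1
      have hm : y S ∈ mX X := hI _ x S fun j _ => X_mem j
      have e : y (insert i S) - ∑ j ∈ insert i S, X j =
          X i * y S * c + (y S - ∑ j ∈ S, X j) := by
        rw [hy (insert i S), Finset.prod_insert hi, hmul, Finset.sum_insert hi, ← hx i, hy S, ← hc]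
        ring
      rw [e]
      refine Ideal.add_mem _ (Ideal.mul_mem_right _ _ ?_) ih
      rw [pow_two]
      exact Ideal.mul_mem_mul (X_mem i) hm
  · intro i
    rw [← hsing, hp, Finset.prod_singleton, hfd]
  · intro S k hk
    rw [hp]
    exact hI _ _ S fun i hi => by rw [hfd]; exact mem_Ik (hk i hi)
  · intro k hk
    have h1 : 1 ≤ 2 ^ k := Nat.one_le_two_pow
    have h2 : 2 ^ k ≤ 2 ^ r := Nat.pow_le_pow_right (by norm_num) hk
    simp only [p, Polynomial.finsetSum_coeff, Polynomial.coeff_monomial]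
    rw [Finset.sum_eq_single (2 ^ k - 1)]
    · rw [Nat.sub_add_cancel h1, if_pos rfl, wc_cf, vs]
    · intro m _ hm
      rw [if_neg (by omega)]
    · intro h
      exact absurd (Finset.mem_range.mpr (by omega)) h

end

end Pool.Agent.MP_826def_gt.BH
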