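import Pool.Agent.MP_826def_gt.MU.Alg

/-!
Specification of the steps of the level algebra.
-/

namespace Pool.Agent.MP_826def_gt.BH

open Set MU

noncomputable section

/-- The ideal generated by the first `k` terms. -/
def Ik {A : Type 1} [CommRing A] (f : ℕ → A) (k : ℕ) : Ideal A := Ideal.span (f '' Iio k)

/-- The ideal generated by the variables. -/
def mX {A : Type 1} [CommRing A] {r : ℕ} (X : Fin r → A) : Ideal A := Ideal.span (range X)

/-- The double of the `k`-th variable. -/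
def fd {A : Type 1} [CommRing A] {r : ℕ} (b : ℕ → ℕ → A) (X : Fin r → A) (k : ℕ) : A :=
  if h : k < r then Fm b (X ⟨k, h⟩) (X ⟨k, h⟩) else 0

/-- `E` has an integral initial form of degree `d` that is not zero modulo two. -/
def Ini {A : Type 1} [CommRing A] {r : ℕ} (X : Fin r → A) (E : A) (d : ℕ) : Prop :=
  ∃ P : MvPolynomial (Fin r) ℤ, P.IsHomogeneous d ∧
    MvPolynomial.map (Int.castRingHom (ZMod 2)) P ≠ 0 ∧ E - MvPolynomial.aeval X P ∈ mX X ^ (d + 1)

/-- The outcome of the division by the level polynomials. -/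
structure Lev {A : Type 1} [CommRing A] {r : ℕ} (X : Fin r → A) (f w g : ℕ → A) (E Q Dl : A)
    (dE dD : ℕ) : Prop where
  hg : ∀ k < r, g k - w k ∈ mX X
  hQ : Q - w r ∈ mX X
  hu : ∀ k < r, ∃ u, u ∣ E ∧ E * (f k - u * g k) ∈ Ik f k
  h2 : E * (w 0 - Q * Dl) ∈ Ik f r
  iE : Ini X E dE
  iD : Ini X Dl dD
  dE_le : dE ≤ 4 ^ r
  dD_pos : 1 ≤ dD
  dD_le : dD ≤ 2 ^ r

/-- Points `y S` with initial forms the subset sums, and a polynomial vanishing at them modulo
the ideals generated by its values at the variables. -/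
structure Pts {A : Type 1} [CommRing A] {r : ℕ} (X : Fin r → A) (f : ℕ → A)
    (y : Finset (Fin r) → A) (p : Polynomial A) : Prop where
  emp : y ∅ = 0
  sing : ∀ i, y {i} = X i
  lin : ∀ S, y S - ∑ i ∈ S, X i ∈ mX X ^ 2
  val : ∀ i : Fin r, p.eval (X i) = f i
  mem : ∀ (S : Finset (Fin r)) (k : ℕ), (∀ i ∈ S, (i : ℕ) < k) → p.eval (y S) ∈ Ik f k

/-- Formal subset sums. -/
def S_H1a : Prop :=
  ∀ (U A : Type 1) [CommRing U] [CommRing A] (a : ℕ → ℕ → U) (φ : U →+* A) (r : ℕ)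
    (X : Fin r → A), FG a → (∀ i, IsNilpotent (X i)) →
    ∃ (y : Finset (Fin r) → A) (p : Polynomial A), Pts X (fd (cf φ a) X) y p ∧
      ∀ k ≤ r, p.coeff (2 ^ k) = φ (vs a k)

/-- Division by the level polynomials. -/
def S_H1b : Prop :=
  ∀ (A : Type 1) [CommRing A] (r : ℕ) (X : Fin r → A) (f : ℕ → A) (y : Finset (Fin r) → A)
    (p : Polynomial A), 1 ≤ r → Pts X f y p →
    ∃ (g : ℕ → A) (E Q Dl : A) (dE dD : ℕ), Lev X f (fun k => p.coeff (2 ^ k)) g E Q Dl dE dD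

/-- The element with coefficients `c`. -/
def Tc {A N M : Type 1} [CommRing A] [AddCommGroup N] [AddCommGroup M] [Module A M] {r : ℕ}
    (X : Fin r → A) (n : ℕ) (ι : N →+ M) (c : (Fin r → Fin n) → N) : M :=
  ∑ e, (∏ i, X i ^ (e i : ℕ)) • ι (c e)

/-- Coefficients of elements of the powers of the ideal of the variables, and of polynomials. -/
def S_Co : Prop :=
  ∀ (U A N M : Type 1) [CommRing U] [CommRing A] [AddCommGroup N] [Module U N] [AddCommGroup M]
    [Module A M] (φ : U →+* A) (r n : ℕ) (X : Fin r → A) (ι : N →+ M),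
    (∀ i, X i ^ n = 0) → FreeOn X n (φ : U →+ A) → FreeOn X n ι →
    (∀ (u : U) (v : N), ι (u • v) = φ u • ι v) →
    (∀ (d : ℕ) (c : (Fin r → Fin n) → N),
      Tc X n ι c ∈ mX X ^ d • (⊤ : Submodule A M) ↔ ∀ e, ∑ i, (e i : ℕ) < d → c e = 0) ∧
    (∀ (P : MvPolynomial (Fin r) ℤ) (v : N), MvPolynomial.aeval X P • ι v =
      Tc X n ι fun e => P.coeff (Finsupp.equivFunOnFinite.symm fun i => (e i : ℕ)) • v) ∧
    ∀ x : A, ∃ u : U, x - φ u ∈ mX X

/-- Regularity of the deformed sequence and initial forms. -/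
def S_H2 : Prop :=
  ∀ (U A N M : Type 1) [CommRing U] [CommRing A] [AddCommGroup N] [Module U N] [AddCommGroup M]
    [Module A M] (φ : U →+* A) (r n k : ℕ) (X : Fin r → A) (ι : N →+ M) (w : ℕ → U) (g : ℕ → A),
    (∀ i, X i ^ n = 0) → FreeOn X n (φ : U →+ A) → FreeOn X n ι →
    (∀ (u : U) (v : N), ι (u • v) = φ u • ι v) → Reg w k N → (∀ i < k, g i - φ (w i) ∈ mX X) →
    Reg g k M ∧ ∀ (d : ℕ) (P : MvPolynomial (Fin r) ℤ) (v : N) (x : M), P.IsHomogeneous d →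
      x - MvPolynomial.aeval X P • ι v ∈ mX X ^ (d + 1) • (⊤ : Submodule A M) →
      x ∈ Ik g k • (⊤ : Submodule A M) → ∀ e : Fin r →₀ ℕ, (∀ i, e i < n) →
        P.coeff e • v ∈ Ik w k • (⊤ : Submodule U N)

/-- The tower is exact up to a bounded power of `E`. -/
def S_H3 : Prop :=
  ∀ r : ℕ, ∃ c : ℕ, ∀ (A : Type 1) [CommRing A] (f g : ℕ → A) (E : A) (M : ℕ → Type 1)
    [∀ k, AddCommGroup (M k)] [∀ k, Module A (M k)] (π : ∀ k, M k →ₗ[A] M (k + 1))
    (γ : ∀ k, M (k + 1) →ₗ[A] M k),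
    (∀ k < r, ∃ u, u ∣ E ∧ E * (f k - u * g k) ∈ Ik f k) → Reg g r (M 0) →
    (∀ k < r, Function.Exact (fun m : M k => f k • m) (π k) ∧ Function.Exact (π k) (γ k) ∧
      Function.Exact (γ k) (fun m : M k => f k • m)) →
    (∀ x ∈ Ik f r, E ^ r * x ∈ Ik g r) ∧
      ∀ x : M 0, up M π r x = 0 → E ^ c • x ∈ Ik f r • (⊤ : Submodule A (M 0))

/-- The two-adic shape of the zero divisor. -/
def S_H4 : Prop :=
  ∀ (A : Type 1) [CommRing A] (r : ℕ) (X : Fin r → A) (i₀ i₁ : Fin r) (L j' s : ℕ), i₀ ≠ i₁ →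
    1 ≤ j' → r * s < 2 ^ L → (∀ i, X i ^ (2 ^ L * j' + s + 1) = 0) →
    ∃ (ν : ℕ) (o : ℤ) (W : A), ν ≤ Nat.log 2 (2 * (2 ^ L * j')) ∧ Odd o ∧
      W ∈ mX X ^ (r * (2 ^ L * j')) ∧
      ∏ i, (X i₀ - X i) ^ ex i₀ i₁ (2 ^ L * j') i =
        2 ^ ν * ((o : A) * (∏ i, X i) ^ (2 ^ L * j') + 2 * W)

/-! ### Initial forms -/

section

variable {A : Type 1} [CommRing A] {r : ℕ} {X : Fin r → A}

theorem X_mem (i : Fin r) : X i ∈ mX X := Ideal.subset_span ⟨i, rfl⟩

theorem aeval_mem {P : MvPolynomial (Fin r) ℤ} {d : ℕ} (h : P.IsHomogeneous d) :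
    MvPolynomial.aeval X P ∈ mX X ^ d := by
  classical
  rw [P.as_sum, map_sum]
  refine Ideal.sum_mem _ fun e he => ?_
  have hd : ∑ i, e i = d := by
    have := h (MvPolynomial.mem_support_iff.mp he)
    rw [← this, Finsupp.weight_apply, Finsupp.sum_fintype _ _ (by simp)]
    simp
  rw [MvPolynomial.aeval_monomial, Finsupp.prod_fintype _ _ (by simp), ← hd,
    ← Finset.prod_pow_eq_pow_sum]
  exact Ideal.mul_mem_left _ _ (Ideal.prod_mem_prod fun i _ => Ideal.pow_mem_pow (X_mem i) _)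

theorem Ini.mem {E : A} {d : ℕ} (h : Ini X E d) : E ∈ mX X ^ d := by
  obtain ⟨P, h1, -, h3⟩ := h
  have := Ideal.add_mem _ (Ideal.pow_le_pow_right (Nat.le_succ d) h3) (aeval_mem (X := X) h1)
  simpa using this

theorem Ini.one : Ini X 1 0 :=
  ⟨1, MvPolynomial.isHomogeneous_one _ _, by simp, by simp⟩

theorem Ini.mul {E E' : A} {d d' : ℕ} (h : Ini X E d) (h' : Ini X E' d') :
    Ini X (E * E') (d + d') := by
  have hE := h.mem
  obtain ⟨P, h1, h2, h3⟩ := h
  obtain ⟨P', h1', h2', h3'⟩ := h'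
  refine ⟨P * P', h1.mul h1', by rw [map_mul]; exact mul_ne_zero h2 h2', ?_⟩
  have e : E * E' - MvPolynomial.aeval X (P * P') =
      E * (E' - MvPolynomial.aeval X P') + (E - MvPolynomial.aeval X P) * MvPolynomial.aeval X P' := by
    rw [map_mul]; ring
  rw [e]
  refine Ideal.add_mem _ ?_ ?_
  · rw [add_assoc, pow_add]; exact Ideal.mul_mem_mul hE h3'
  · rw [add_right_comm, pow_add]; exact Ideal.mul_mem_mul h3 (aeval_mem h1')

theorem Ini.prod {ι : Type} (s : Finset ι) {E : ι → A} {d : ι → ℕ}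
    (h : ∀ i ∈ s, Ini X (E i) (d i)) : Ini X (∏ i ∈ s, E i) (∑ i ∈ s, d i) := by
  classical
  induction s using Finset.induction_on with
  | empty => simpa using Ini.one
  | insert a s ha ih =>
    rw [Finset.prod_insert ha, Finset.sum_insert ha]
    exact (h a (Finset.mem_insert_self _ _)).mul (ih fun i hi => h i (Finset.mem_insert_of_mem hi))

theorem Ini.pow {E : A} {d : ℕ} (h : Ini X E d) (n : ℕ) : Ini X (E ^ n) (n * d) := by
  simpa using Ini.prod (Finset.range n) (E := fun _ => E) (d := fun _ => d) fun _ _ => h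

theorem Ik_mono {f : ℕ → A} {k l : ℕ} (h : k ≤ l) : Ik f k ≤ Ik f l :=
  Ideal.span_mono (image_mono (Iio_subset_Iio h))

theorem mem_Ik {f : ℕ → A} {i k : ℕ} (h : i < k) : f i ∈ Ik f k := Ideal.subset_span ⟨i, h, rfl⟩

theorem Ik_zero (f : ℕ → A) : Ik f 0 = ⊥ := by simp [Ik]

theorem Ik_succ (f : ℕ → A) (k : ℕ) : Ik f (k + 1) = Ik f k ⊔ Ideal.span {f k} := by
  rw [Ik, Ik, ← Ideal.span_union, ← image_singleton, ← image_union]
  congr 2
  ext i
  simp only [mem_Iio, mem_union, mem_singleton_iff]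
  omega

end

end

end Pool.Agent.MP_826def_gt.BH
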